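import Pool.Agent.Helper13.UN.CE6
import Pool.Agent.Helper93.UN.RE
import Pool.Agent.Helper52.UN.LE1
import Pool.Agent.Helper77.UN.LE2
import Pool.Agent.Helper75.UN.LB
import Pool.Agent.Helper88.UN.LA
import Pool.Agent.Helper52.UN.LC
import Pool.Agent.Helper20.UN.RP2
import Pool.Agent.Helper95.TR.B23
import Pool.Agent.Helper21.TR.Simple

/-!
MP_b8862a_ag, unitary (type IV) theorem, case `p = q`: the Lie algebra theorem.
-/

open Module LieModule LieAlgebra LieAlgebra.IsKilling

attribute [local instance 100] LieRing.ofAssociativeRing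

namespace UN

open MTP MTP.MF Pool.Agent.Helper54.MT

namespace LE3

section comb

variable {K : Type*} [Field K] [CharZero K] {M : Type*} [AddCommGroup M] [Module K M]
  {B : LinearMap.BilinForm K M} {s : M →ₗ[K] K} {c : K} {Φ X : Finset M}

omit [CharZero K] in
open Classical in
theorem card_neg_le (h : USL B s c Φ X) {a : M} (ha : a ∈ Φ) :
    (X.filter (fun x => B x a = 1)).card ≤ (X.filter (fun x => B x (-a) = 1)).card := by
  refine Finset.card_le_card_of_injOn (fun x => x - a) ?_ ?_
  · intro x hx
    rw [Finset.mem_coe, Finset.mem_filter] at hx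
    rw [Finset.mem_coe, Finset.mem_filter]
    refine ⟨h.xsub x hx.1 a ha hx.2, ?_⟩
    rw [map_neg, map_sub, LinearMap.sub_apply, hx.2, h.two a ha]
    norm_num
  · intro x _ y _ hxy
    exact sub_left_injective hxy

omit [CharZero K] in
open Classical in
theorem card_neg (h : USL B s c Φ X) {a : M} (ha : a ∈ Φ) :
    (X.filter (fun x => B x (-a) = 1)).card = (X.filter (fun x => B x a = 1)).card := by
  refine le_antisymm ?_ (card_neg_le h ha)
  have := card_neg_le h (h.neg a ha)
  rwa [neg_neg] at this

open Classical in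
/-- The counts are one for all roots if they are one for the roots of value one. -/
theorem card_one (h : USL B s c Φ X)
    (h1 : ∀ a ∈ Φ, s a = 1 → (X.filter (fun x => B x a = 1)).card = 1) {g : M} (hg : g ∈ Φ) :
    (X.filter (fun x => B x g = 1)).card = 1 := by
  rcases UN.CR2.vals h hg with h2 | h2 | h2
  · rw [← card_neg h hg]
    exact h1 _ (h.neg g hg) (by rw [map_neg, h2, neg_neg])
  · have hg0 : g ≠ 0 := UN.CR2.ne_zero h hg
    obtain ⟨b, hb, hsb, hgb⟩ : ∃ b ∈ Φ, s b = 1 ∧ B g b ≠ 0 := by
      by_contra! hcon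
      exact hg0 (h.hit g hcon)
    have hne : g ≠ b := by
      rintro rfl
      rw [h2] at hsb
      exact zero_ne_one hsb
    have hne' : g ≠ -b := by
      rintro rfl
      rw [map_neg, hsb] at h2
      norm_num at h2
    rcases h.pair g hg b hb hne hne' with h3 | h3 | h3
    · have h4 : B (-g) b = 1 := by
        rw [map_neg, LinearMap.neg_apply, h3, neg_neg]
      rw [← card_neg h hg, UN.CR2.card_eq h (h.neg g hg) hb h4]
      exact h1 b hb hsb
    · exact absurd h3 hgb
    · rw [UN.CR2.card_eq h hg hb h3]
      exact h1 b hb hsb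
  · exact h1 g hg h2

end comb

variable {K : Type*} [Field K] [CharZero K] [IsAlgClosed K] {V : Type*} [AddCommGroup V]
  [Module K V] [FiniteDimensional K V]

omit [CharZero K] [IsAlgClosed K] [FiniteDimensional K V] in
/-- The rank of a diagonal idempotent. -/
theorem rk_diag {I : Type*} [Fintype I] (v : Basis I K V) {P : Module.End K V} {a : I → K}
    (ha : ∀ i, P (v i) = a i • v i) : open Classical in
    rk P = (Finset.univ.filter (fun i => a i ≠ 0)).card := by
  classical
  have h1 : LinearMap.range P = Submodule.span K (Set.range (fun i : {i // a i ≠ 0} => v i.1)) := by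
    apply le_antisymm
    · rintro _ ⟨u, rfl⟩
      rw [← v.sum_repr u, map_sum]
      refine Submodule.sum_mem _ fun i _ => ?_
      rw [map_smul, ha]
      by_cases h : a i = 0
      · rw [h, zero_smul, smul_zero]
        exact Submodule.zero_mem _
      · exact Submodule.smul_mem _ _ (Submodule.smul_mem _ _ (Submodule.subset_span ⟨⟨i, h⟩, rfl⟩))
    · rw [Submodule.span_le]
      rintro _ ⟨⟨i, hi⟩, rfl⟩
      refine ⟨(a i)⁻¹ • v i, ?_⟩
      rw [map_smul, ha, smul_smul, inv_mul_cancel₀ hi, one_smul]
  have h2 := finrank_span_eq_card (v.linearIndependent.comp (Subtype.val : {i // a i ≠ 0} → I)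
    Subtype.val_injective)
  have h3 : Set.range (v ∘ (Subtype.val : {i // a i ≠ 0} → I)) =
    Set.range (fun i : {i // a i ≠ 0} => v i.1) := rfl
  rw [rk, h1, ← h3, h2, Fintype.card_subtype]

omit [CharZero K] [IsAlgClosed K] [FiniteDimensional K V] in
theorem semisimple_sub {P : Module.End K V} (hP : P * P = P) (d : K) :
    (P - d • 1).IsSemisimple := by
  have h1 : P.IsSemisimple := by
    apply Module.End.isSemisimple_of_squarefree_aeval_eq_zero
      (p := (Polynomial.X * (Polynomial.X - 1) : Polynomial K))
    · have h2 : IsCoprime (Polynomial.X : Polynomial K) (Polynomial.X - 1) :=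
        ⟨1, -1, by ring⟩
      rw [squarefree_mul_iff]
      refine ⟨h2.isRelPrime, Polynomial.irreducible_X.squarefree, ?_⟩
      have := (Polynomial.irreducible_X_sub_C (1 : K)).squarefree
      rwa [Polynomial.C_1] at this
    · rw [map_mul, map_sub, Polynomial.aeval_X, map_one, mul_sub, hP, mul_one, sub_self]
  have h2 : (P - d • (1 : Module.End K V)) = P - algebraMap K (Module.End K V) d := by
    rw [Algebra.algebraMap_eq_smul_one]
  rw [h2, Module.End.isSemisimple_sub_algebraMap_iff]
  exact h1

end LE3

variable {K : Type*} [Field K] [CharZero K] [IsAlgClosed K] {V : Type*} [AddCommGroup V]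
  [Module K V] [FiniteDimensional K V]

/-- LE3: the Lie algebra theorem for `p = q` (assembly). -/
theorem lie_half {L : LieSubalgebra K (Module.End K V)}
    (hirr : ∀ W : Submodule K V, (∀ z ∈ L, ∀ w ∈ W, z w ∈ W) → W = ⊥ ∨ W = ⊤)
    (htr : ∀ z ∈ L, LinearMap.trace K V z = 0) (hsimple : IsSimple K L)
    (hform : ∀ b : LinearMap.BilinForm K V, (∀ z ∈ L, ∀ u v, b (z u) v = - b u (z v)) → b = 0)
    {P : Module.End K V} (hP : P * P = P) (h0 : P ≠ 0) (h1 : P ≠ 1) {d : K}
    (hd : P - d • 1 ∈ L) (hpq : 2 * rk P = finrank K V)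
    {N : Module.End K V} (hN : N ∈ L) (hNN : N * N = 0) (hN0 : N ≠ 0) :
    (∀ z, LinearMap.trace K V z = 0 → z ∈ L) ∨
    ∃ n, Odd n ∧ 5 ≤ n ∧ finrank K V = 2 ^ (n - 1) ∧ rk P = 2 ^ (n - 2) ∧
      (rk N = 2 ^ (n - 3) ∨ rk N = 2 ^ (n - 2)) := by
  classical
  have hV : Nontrivial V := by
    by_contra hcon
    rw [not_nontrivial_iff_subsingleton] at hcon
    exact hN0 (Subsingleton.elim _ _)
  have hk : IsKilling K L := killing_tr hirr htr
  obtain ⟨H, hH, hsH⟩ := exists_cartan_end (L := L) ⟨P - d • 1, hd⟩ (LE3.semisimple_sub hP d)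
  have hirrR : (rootSystem H).IsIrreducible := inferInstance
  have hne : Nonempty H.root := by
    by_contra hcon
    rw [not_nonempty_iff] at hcon
    have hN : Nontrivial H := RootPairing.IsIrreducible.nontrivial' (rootSystem H)
    have h1 : (⊤ : Submodule K H) = ⊥ := by
      have h2 : (rootSystem H).corootSpan K = ⊤ := RootPairing.IsRootSystem.span_coroot_eq_top
      rw [← h2, RootPairing.corootSpan, Set.range_eq_empty, Submodule.span_empty]
    exact bot_ne_top h1.symm
  have hirr' : ∀ W : Submodule K V, (∀ x : L, ∀ u ∈ W, ⁅x, u⁆ ∈ W) → W = ⊥ ∨ W = ⊤ :=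
    fun W hW => hirr W fun z hz w hw => hW ⟨z, hz⟩ w hw
  have hfaith : ∀ x : L, (∀ u : V, ⁅x, u⁆ = 0) → x = 0 := by
    intro x hx
    apply Subtype.ext
    ext u
    exact hx u
  obtain ⟨n₀, ⟨B⟩⟩ := exists_WB (V := V) (H := H) hirr'
  set s' : H := ⟨⟨P - d • 1, hd⟩, hsH⟩ with hs'
  have hPv : ∀ i, P (B.v i) = (B.w i s' + d) • B.v i := by
    intro i
    have h2 : (P - d • (1 : Module.End K V)) (B.v i) = B.w i s' • B.v i := B.lie_v i s'
    rw [LinearMap.sub_apply, LinearMap.smul_apply, Module.End.one_apply, sub_eq_iff_eq_add] at h2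
    rw [h2, add_smul]
  have hval : ∀ i, B.w i s' + d = 1 ∨ B.w i s' + d = 0 := by
    intro i
    have h2 : P (P (B.v i)) = P (B.v i) := LinearMap.congr_fun hP (B.v i)
    rw [hPv, map_smul, hPv, smul_smul] at h2
    have h3 : ((B.w i s' + d) * (B.w i s' + d) - (B.w i s' + d)) • B.v i = 0 := by
      rw [sub_smul, h2, sub_self]
    have h4 := (smul_eq_zero.mp h3).resolve_right (B.v.ne_zero i)
    have h5 : (B.w i s' + d - 1) * (B.w i s' + d) = 0 := by linear_combination h4
    rcases mul_eq_zero.mp h5 with h6 | h6
    · left; linear_combination h6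
    · right; exact h6
  have hs : ∀ i, B.w i s' = 1 - d ∨ B.w i s' = (1 - d) - 1 := by
    intro i
    rcases hval i with h2 | h2
    · left; linear_combination h2
    · right; linear_combination h2
  have hs0 : s' ≠ 0 := by
    intro h2
    have h3 : ∀ i, P (B.v i) = d • B.v i := by
      intro i
      rw [hPv, h2, map_zero, zero_add]
    have h4 : P = d • 1 := B.v.ext fun i => by rw [h3]; rfl
    obtain ⟨u, hu⟩ := exists_ne (0 : V)
    rw [h4] at hP
    have h5 := LinearMap.congr_fun hP u
    simp only [Module.End.mul_apply, LinearMap.smul_apply, Module.End.one_apply,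
      smul_smul] at h5
    have h6 : (d * d - d) • u = 0 := by rw [sub_smul, h5, sub_self]
    have h7 := (smul_eq_zero.mp h6).resolve_right hu
    have h8 : d * (d - 1) = 0 := by linear_combination h7
    rcases mul_eq_zero.mp h8 with h9 | h9
    · exact h0 (by rw [h4, h9, zero_smul])
    · exact h1 (by rw [h4, sub_eq_zero.mp h9, one_smul])
  have hsq : ∀ (α : H.root) (x : L), x ∈ rootSpace H α.1 →
      toEnd K L V x * toEnd K L V x = 0 := fun α x hx => sq_zero B hfaith hs hs0 α hx
  have hinj : Function.Injective B.w := mult_one B hirr' hsq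
  set X : Finset (Dual K H) := Finset.univ.image B.w with hX
  have hU : USit (rootSystem H) X (Module.Dual.eval K H s') (1 - d) :=
    usit B hirr' hfaith hsq hs hs0
  have hspan : (rootSystem H).rootSpan K = ⊤ := RootPairing.IsRootSystem.span_root_eq_top
  have hsmall : ∀ (i : Fin n₀) (α : H.root), B.w i (coroot α.1) = -1 ∨ B.w i (coroot α.1) = 0 ∨
      B.w i (coroot α.1) = 1 := by
    intro i α
    have h2 := TR.B45.small' B hsq i α
    rw [TR.B45.coroot'_eq] at h2
    exact h2
  -- counts
  have hcard : ∀ p : Dual K H → Prop, (X.filter p).card =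
      (Finset.univ.filter (fun i => p (B.w i))).card := by
    intro p
    rw [hX, Finset.filter_image, Finset.card_image_of_injective _ hinj]
  have hXc : X.card = finrank K V := by
    rw [hX, Finset.card_image_of_injective _ hinj, Finset.card_univ, Fintype.card_fin,
      finrank_eq_card_basis B.v, Fintype.card_fin]
  have hc1 : (X.filter (fun x => Module.Dual.eval K H s' x = 1 - d)).card = rk P := by
    rw [hcard, LE3.rk_diag B.v hPv]
    congr 1
    apply Finset.filter_congr
    intro i _
    rw [Module.Dual.eval_apply]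
    rcases hval i with h2 | h2
    · rw [h2]
      simp only [ne_eq, one_ne_zero, not_false_eq_true, iff_true]
      linear_combination h2
    · rw [h2]
      simp only [ne_eq, not_true_eq_false, iff_false]
      intro h3
      rw [h3] at h2
      exact one_ne_zero (α := K) (by linear_combination h2)
  have hc2 : (X.filter (fun x => Module.Dual.eval K H s' x = 1 - d)).card +
      (X.filter (fun x => Module.Dual.eval K H s' x = 1 - d - 1)).card = X.card := by
    have h2 : X.filter (fun x => Module.Dual.eval K H s' x = 1 - d - 1) =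
        X.filter (fun x => ¬ Module.Dual.eval K H s' x = 1 - d) := by
      apply Finset.filter_congr
      intro x hx
      rcases hU.sx x hx with h3 | h3
      · rw [h3]
        simp
      · rw [h3]
        have h4 : ¬ (1 - d - 1 = 1 - d) := fun h =>
          one_ne_zero (α := K) (by linear_combination -h)
        simp only [h4, not_false_eq_true]
    rw [h2, Finset.card_filter_add_card_filter_not]
  have heq : (X.filter (fun x => Module.Dual.eval K H s' x = 1 - d)).card =
      (X.filter (fun x => Module.Dual.eval K H s' x = 1 - d - 1)).card := by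
    rw [hXc] at hc2
    omega
  have hneg : ¬ ∀ x ∈ X, -x ∈ X := by
    intro h2
    obtain ⟨b, hb0, hb⟩ := exists_form B hirr hinj hsmall (by
      intro i
      have h3 := h2 (B.w i) (Finset.mem_image_of_mem _ (Finset.mem_univ _))
      obtain ⟨j, -, hj⟩ := Finset.mem_image.mp h3
      exact ⟨j, hj⟩)
    exact hb0 (hform b hb)
  obtain ⟨α₀⟩ := hne
  have hlen : ∀ i, len (rootSystem H) i = len (rootSystem H) α₀ := by
    intro i
    by_contra h2
    exact hneg (USit.neg_of_len hU hspan h2)
  have hSL := USit.toUSL hU hspan hlen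
  have hbf : ∀ (x : Dual K H) (α : H.root),
      TR.bf (rootSystem H) (len (rootSystem H) α₀) x ((rootSystem H).root α) =
        x (coroot α.1) := by
    intro x α
    rw [TR.bf_one (hlen α), TR.B45.coroot'_eq]
  have hcount : ∀ α : H.root, (X.filter (fun x =>
      TR.bf (rootSystem H) (len (rootSystem H) α₀) x ((rootSystem H).root α) = 1)).card =
      (Finset.univ.filter (fun i => B.w i (coroot α.1) = 1)).card := by
    intro α
    rw [hcard]
    simp only [hbf]
  by_cases hr : ∃ a ∈ Finset.univ.image (rootSystem H).root, Module.Dual.eval K H s' a = 1 ∧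
      (X.filter (fun x => TR.bf (rootSystem H) (len (rootSystem H) α₀) x a = 1)).card ≠ 1
  · right
    obtain ⟨n, hn, hn5, hn1, hn2, hn3⟩ := hSL.half heq hneg hr
    refine ⟨n, hn, hn5, by rw [← hXc, hn1], by rw [← hc1, hn2], ?_⟩
    have hdvd := rank_dvd B hirr hsimple hsq ?_ α₀ hN hNN
    · rw [← hcount, hn3 _ (Finset.mem_image_of_mem _ (Finset.mem_univ _))] at hdvd
      obtain ⟨j, hj⟩ := hdvd
      have hle := rk_le_half hNN
      have hNpos : 0 < rk N := rk_pos.mpr hN0
      obtain ⟨k, rfl⟩ : ∃ k, n = k + 3 := ⟨n - 3, by omega⟩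
      have e1 : k + 3 - 3 = k := by omega
      have e2 : k + 3 - 2 = k + 1 := by omega
      have e3 : k + 3 - 1 = k + 2 := by omega
      rw [e1] at hj ⊢
      rw [e2]
      rw [e3] at hn1
      have hpos : 0 < 2 ^ k := pow_pos (by norm_num) k
      rw [← hXc, hn1, hj, pow_add] at hle
      rw [hj] at hNpos
      have hj2 : j ≤ 2 := by
        by_contra h3
        have h4 : 2 ^ k * 3 ≤ 2 ^ k * j := Nat.mul_le_mul_left _ (by omega)
        omega
      have hj0 : j ≠ 0 := by
        rintro rfl
        simp at hNpos
      have : j = 1 ∨ j = 2 := by omega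
      rcases this with rfl | rfl
      · left; rw [hj, mul_one]
      · right; rw [hj, pow_succ]
    · intro α β hαβ hαβ'
      have h2 := hSL.pair ((rootSystem H).root α) (Finset.mem_image_of_mem _ (Finset.mem_univ _))
        ((rootSystem H).root β) (Finset.mem_image_of_mem _ (Finset.mem_univ _))
        (fun h => hαβ ((rootSystem H).root.injective h)) hαβ'
      have h3 : TR.bf (rootSystem H) (len (rootSystem H) α₀) ((rootSystem H).root α)
          ((rootSystem H).root β) = (((rootSystem H).pairingIn ℤ α β : ℤ) : K) := by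
        rw [TR.bf_one (hlen β)]
        have h4 : (rootSystem H).coroot' β ((rootSystem H).root α) =
          (rootSystem H).pairing α β := (rootSystem H).root_coroot'_eq_pairing β α
        rw [h4]
        exact ((rootSystem H).algebraMap_pairingIn ℤ α β).symm
      rw [h3] at h2
      rcases h2 with h2 | h2 | h2
      · left; exact_mod_cast h2
      · right; left; exact_mod_cast h2
      · right; right; exact_mod_cast h2
  · left
    push Not at hr
    intro z hz
    refine sl_of_one B hinj hsq ?_ ?_ hz
    · intro i j hij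
      obtain ⟨g, hg, hg1, hg2⟩ := hSL.sep (B.w i) (Finset.mem_image_of_mem _ (Finset.mem_univ _))
        (B.w j) (Finset.mem_image_of_mem _ (Finset.mem_univ _)) (fun h => hij (hinj h))
      obtain ⟨α, -, rfl⟩ := Finset.mem_image.mp hg
      rw [hbf] at hg1 hg2
      exact ⟨α, hg1, hg2⟩
    · intro α
      rw [← hcount]
      exact LE3.card_one hSL hr (Finset.mem_image_of_mem _ (Finset.mem_univ _))

end UN
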